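import Mathlib
import Pool.Agent.Y665.PE.F1

/-!
# Local PEPS approximation for generic interactions

Every translation invariant family of Hamiltonians `H_L` on the tori, given by an interaction on a
finite region `R`, has a ground state energy per site `e`, a function on the finite dimensional
space of interactions on `R`. It is differentiable at Lebesgue almost every interaction, and at
every point of differentiability one translationally invariant tensor approximates, on all large
tori, the reduced states on `R` of all translation invariant ground vectors, of this interaction and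
of all interactions near it. No assumption on the gap, on uniqueness or on the convergence of the
reduced states is needed.
-/

set_option autoImplicit false

open MeasureTheory
open Pool.Agent.H4R2
open Pool.Agent.Y665.PE (TransInv herm)

namespace Pool.Agent.Results.MP_0f69bf_mp.GenericInteractions

/-- `E` is the least eigenvalue of `H`. -/
def LeastEigenvalue {n : Type} [Fintype n] (H : Matrix n n ℂ) (E : ℝ) : Prop :=
  (∃ ψ : n → ℂ, ψ ≠ 0 ∧ H.mulVec ψ = (E : ℂ) • ψ) ∧
    ∀ (E' : ℝ) (φ : n → ℂ), φ ≠ 0 → H.mulVec φ = (E' : ℂ) • φ → E ≤ E'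

/-- `ψ` is a normalised eigenvector of `H` for the least eigenvalue, and an eigenvector of all
translations (this holds for every normalised ground vector if the ground space is
one-dimensional). -/
def InvariantGroundVector {d L : ℕ} [NeZero L]
    (H : Matrix (Site L → Fin d) (Site L → Fin d) ℂ) (ψ : (Site L → Fin d) → ℂ) : Prop :=
  normSq ψ = 1 ∧ TransInv ψ ∧ ∃ E : ℝ, LeastEigenvalue H E ∧ H.mulVec ψ = (E : ℂ) • ψ

/-- **Theorem.** Let `d ≥ 2` and let `R` be a finite region. There is a function `e` on the real
vector space of interactions on `R` (with coordinates `x`, see `herm`) such that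

* `e x` is the limit of the least eigenvalue of `H_L` divided by `L ^ 2`;
* `e` is differentiable at almost every `x` for the Lebesgue measure;
* whenever `e` is differentiable at `x`, for all `R₀ ⊆ R` and `ε > 0` there are one tensor `A` of
  bond dimension `bondDim d R₀ ε` and a `δ > 0` such that for all large `L` the PEPS vector of `A`
  is nonzero, and for all `y` with `‖y - x‖ ≤ δ` and all invariant ground vectors of the interaction
  `y` the reduced states on `R₀` of the ground vector and of the PEPS are `ε`-close. -/
theorem result (d : ℕ) (hd : 2 ≤ d) (R : Finset (ℤ × ℤ)) :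
    ∃ e : ((R → Fin d) → (R → Fin d) → ℝ) → ℝ,
      (∀ x, ∀ ε : ℝ, 0 < ε → ∃ L₀ : ℕ, ∀ (L : ℕ) [NeZero L], L₀ ≤ L → ∀ E : ℝ,
        LeastEigenvalue (ham R (herm x) L) E → |E / (L : ℝ) ^ 2 - e x| ≤ ε) ∧
      (∀ᵐ x, DifferentiableAt ℝ e x) ∧
      (∀ x, DifferentiableAt ℝ e x → ∀ R₀ : Finset (ℤ × ℤ), R₀ ⊆ R → ∀ ε : ℝ, 0 < ε →
        ∃ A : Tensor d (bondDim d R₀ ε), ∃ δ : ℝ, 0 < δ ∧ ∃ L₀ : ℕ, ∀ (L : ℕ) [NeZero L], L₀ ≤ L →
          contract A L ≠ 0 ∧ ∀ y, ‖y - x‖ ≤ δ → ∀ ψ : (Site L → Fin d) → ℂ,
            InvariantGroundVector (ham R (herm y) L) ψ →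
            traceNorm (redState R₀ ψ - redState R₀ (contract A L)) ≤ ε) :=
  Pool.Agent.Y665.PE.generic hd R

end Pool.Agent.Results.MP_0f69bf_mp.GenericInteractions
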