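import Mathlib
import Pool.Agent.Y738.PE.Glob3

/-!
# From arbitrary PEPS at one size to translation invariant PEPS at all sizes

Let `d ≥ 2` and let `R ⊂ ℤ²` be finite; `r` depends only on `R` (and `d`).

(1) Let `P` be a nonzero vector on a torus of side `m ≥ 16 r / ε` given by a PEPS with ARBITRARY
tensors (not translation invariant) of bond dimension `f`. There is ONE translation invariant
tensor `A` with bond dimension `(2 (m ⌈24/ε⌉ + 2))² f⁴` whose PEPS vector is nonzero on all tori of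
side `L ≥ r + (m ⌈24/ε⌉ + 3)²` and such that: whenever the reduced density matrices on `R` of a
vector `Ψ` (on any torus, at all positions) are `η`-close to those of `P` at all positions, they are
`(ε + η)`-close to those of the PEPS of `A`, on all these tori.

(2) Hence for every family `Ψ^[L]` whose reduced density matrices on `R` converge at a polynomial
rate the following are equivalent: (a) translation invariant tensors with bond dimension polynomial
in `1/ε`, one for all sizes `L ≥ poly(1/ε)`, approximate the reduced density matrices of `Ψ^[L]` on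
`R` up to `ε` (this is what Q2 asks for); (b) PEPS with arbitrary tensors of bond dimension
polynomial in `1/ε` do so, for each `ε` for a single size `m` between `16 r / ε` and
`poly(1/ε)`.

So for Q2 translation invariance and the uniformity in the size come for free: a global (or local)
approximation of the ground states `Ψ^[m]` at fixed accuracy by PEPS without symmetry of bond
dimension `poly(m)` suffices.
-/

set_option autoImplicit false

open scoped BigOperators ComplexConjugate Classical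

noncomputable section

namespace Pool.Agent.Results.MP_0f69bf_mp.GlobalToLocal

/-- Sites of the `L × L` torus. -/
abbrev Site (L : ℕ) := ZMod L × ZMod L

/-- Configurations (basis states) of the torus with local dimension `d`; vectors are functions
`Conf d L → ℂ`. -/
abbrev Conf (d L : ℕ) := Site L → Fin d

/-- Squared norm of a vector. -/
def nrm {S : Type} [Fintype S] (f : S → ℂ) : ℝ := ∑ s, ‖f s‖ ^ 2

/-- The matrix `B` has operator norm at most `1`. -/
def Contr {S : Type} [Fintype S] (B : S → S → ℂ) : Prop :=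
  ∀ f : S → ℂ, nrm (fun σ => ∑ τ, B σ τ * f τ) ≤ nrm f

/-- The restriction of `s` to the translate by `v` of the region `R ⊂ ℤ²`. -/
def res {d L : ℕ} (R : Finset (ℤ × ℤ)) (s : Conf d L) (v : Site L) : R → Fin d :=
  fun p => s (v.1 + ((p : ℤ × ℤ).1 : ZMod L), v.2 + ((p : ℤ × ℤ).2 : ZMod L))

/-- `⟨Ψ, B_v Ψ⟩`, the matrix `B` acting on the translate by `v` of the region `R`: the sum of
`conj (Ψ s) * B (s on v + R) (s' on v + R) * Ψ s'` over all pairs `s`, `s'` which agree off
`v + R`. -/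
def expecR {d L : ℕ} [NeZero L] (R : Finset (ℤ × ℤ)) (Ψ : Conf d L → ℂ) (v : Site L)
    (B : (R → Fin d) → (R → Fin d) → ℂ) : ℂ :=
  ∑ s : Conf d L, ∑ s' : Conf d L,
    if (∀ w : Site L, (∀ p ∈ R, w ≠ (v.1 + (p.1 : ZMod L), v.2 + (p.2 : ZMod L))) → s w = s' w)
    then conj (Ψ s) * B (res R s v) (res R s' v) * Ψ s' else 0

/-- The reduced density matrices on `R` of the normalised vectors `Ψ`, `Ψ'` (on two possibly
different tori, at any positions) have trace distance at most `ε`: the expectations of all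
matrices of norm at most `1` differ by at most `ε`. -/
def Close {d L L' : ℕ} [NeZero L] [NeZero L'] (R : Finset (ℤ × ℤ)) (Ψ : Conf d L → ℂ)
    (Ψ' : Conf d L' → ℂ) (ε : ℝ) : Prop :=
  ∀ (u : Site L) (v : Site L') (B : (R → Fin d) → (R → Fin d) → ℂ), Contr B →
    ‖expecR R Ψ u B / (nrm Ψ : ℂ) - expecR R Ψ' v B / (nrm Ψ' : ℂ)‖ ≤ ε

/-- A PEPS tensor with physical dimension `d` and bond dimension `D`; indices: physical, left,
right, down, up. -/
abbrev Tensor (d D : ℕ) := Fin d → Fin D → Fin D → Fin D → Fin D → ℂ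

/-- The translation invariant PEPS vector of the tensor `A` on the `L × L` torus. -/
def peps {d D : ℕ} (A : Tensor d D) (L : ℕ) [NeZero L] : Conf d L → ℂ :=
  fun s => ∑ hor : Site L → Fin D, ∑ ver : Site L → Fin D,
    ∏ v : Site L, A (s v) (hor (v.1 - 1, v.2)) (hor v) (ver (v.1, v.2 - 1)) (ver v)

/-- The vector of the PEPS on the `m × m` torus with the tensor `C v` at the site `v`. -/
def pepsN {d m : ℕ} [NeZero m] {X : Type} [Fintype X]
    (C : Site m → Fin d → X → X → X → X → ℂ) : Conf d m → ℂ :=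
  fun s => ∑ hor : Site m → X, ∑ ver : Site m → X,
    ∏ v : Site m, C v (s v) (hor (v.1 - 1, v.2)) (hor v) (ver (v.1, v.2 - 1)) (ver v)

/-- The bond dimension `(2 (m ⌈24/ε⌉ + 2))² f⁴`. -/
def bondG (m f : ℕ) (ε : ℝ) : ℕ := (2 * (m * ⌈24 / ε⌉₊ + 2)) ^ 2 * f ^ 4

/-- The reduced density matrices on `R` of the family `Ψ` converge at a polynomial rate (in trace
norm, at all positions). -/
def PolyConv {d : ℕ} (R : Finset (ℤ × ℤ)) (Ψ : ∀ L : ℕ, Conf d L → ℂ) : Prop :=
  ∃ c k : ℕ, ∀ ε : ℝ, 0 < ε → ε ≤ 1 → ∀ (L L' : ℕ) [NeZero L] [NeZero L'],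
    (c : ℝ) * (1 / ε) ^ k ≤ L → (c : ℝ) * (1 / ε) ^ k ≤ L' → Close R (Ψ L) (Ψ L') ε

/-- Polynomially efficient local approximation by PEPS with arbitrary tensors, for each `ε` for one
size `m ≥ r / ε`. -/
def EffAny {d : ℕ} (R : Finset (ℤ × ℤ)) (r : ℕ) (Ψ : ∀ L : ℕ, Conf d L → ℂ) : Prop :=
  ∃ c k : ℕ, ∀ ε : ℝ, 0 < ε → ε ≤ 1 → ∃ (m : ℕ) (_ : NeZero m) (f : ℕ) (C : Site m → Tensor d f),
    (r : ℝ) / ε ≤ m ∧ (m : ℝ) ≤ c * (1 / ε) ^ k ∧ (f : ℝ) ≤ c * (1 / ε) ^ k ∧
    nrm (pepsN C) ≠ 0 ∧ Close R (Ψ m) (pepsN C) ε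

/-- Polynomially efficient local approximation by translation invariant PEPS, for each `ε` with one
tensor for all sizes `L ≥ c (1/ε)^k`. -/
def EffAll {d : ℕ} (R : Finset (ℤ × ℤ)) (Ψ : ∀ L : ℕ, Conf d L → ℂ) : Prop :=
  ∃ c k : ℕ, ∀ ε : ℝ, 0 < ε → ε ≤ 1 → ∃ (D : ℕ) (A : Tensor d D),
    (D : ℝ) ≤ c * (1 / ε) ^ k ∧
    ∀ (L : ℕ) [NeZero L], (c : ℝ) * (1 / ε) ^ k ≤ L →
      nrm (peps A L) ≠ 0 ∧ Close R (Ψ L) (peps A L) ε

theorem result (d : ℕ) (hd : 2 ≤ d) (R : Finset (ℤ × ℤ)) :
    ∃ r : ℕ, 0 < r ∧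
      -- (1) from an arbitrary PEPS at one size to a translation invariant PEPS at all sizes
      (∀ ε : ℝ, 0 < ε → ε ≤ 1 → ∀ (m : ℕ) [NeZero m], 16 * (r : ℝ) / ε ≤ m →
        ∀ (f : ℕ) (C : Site m → Tensor d f), nrm (pepsN C) ≠ 0 →
        ∃ A : Tensor d (bondG m f ε), ∀ (L : ℕ) [NeZero L], r + (m * ⌈24 / ε⌉₊ + 3) ^ 2 ≤ L →
          nrm (peps A L) ≠ 0 ∧
          ∀ (L' : ℕ) [NeZero L'] (Ψ : Conf d L' → ℂ) (η : ℝ), r ≤ L' →
            Close R Ψ (pepsN C) η → Close R Ψ (peps A L) (ε + η)) ∧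
      -- (2) for families with polynomially convergent marginals the two efficiencies coincide
      (∀ Ψ : ∀ L : ℕ, Conf d L → ℂ, PolyConv R Ψ → (EffAny R (16 * r) Ψ ↔ EffAll R Ψ)) :=
  Pool.Agent.Y738.PE.both d hd R

end Pool.Agent.Results.MP_0f69bf_mp.GlobalToLocal
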