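import Mathlib
import Pool.Agent.Y665.PE.G1

/-!
# Local PEPS approximation for Hamiltonians with a stable gap

If the spectral gap of a translation invariant Hamiltonian on the tori survives small translation
invariant perturbations supported on a finite region `R`, then one translationally invariant tensor
approximates the reduced states on `R` of the ground states on all large tori, and also those of all
translation invariant ground vectors of all nearby Hamiltonians.
-/

set_option autoImplicit false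

open Pool.Agent.H4R2
open Pool.Agent.Y665.PE (TransInv)

namespace Pool.Agent.Results.MP_0f69bf_mp.StableGap

/-- `E` is the least eigenvalue of `H`. -/
def LeastEigenvalue {n : Type} [Fintype n] (H : Matrix n n ℂ) (E : ℝ) : Prop :=
  (∃ ψ : n → ℂ, ψ ≠ 0 ∧ H.mulVec ψ = (E : ℂ) • ψ) ∧
    ∀ (E' : ℝ) (φ : n → ℂ), φ ≠ 0 → H.mulVec φ = (E' : ℂ) • φ → E ≤ E'

/-- `ψ` is a normalised eigenvector of `H` for the least eigenvalue, and an eigenvector of all
translations. -/
def InvariantGroundVector {d L : ℕ} [NeZero L]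
    (H : Matrix (Site L → Fin d) (Site L → Fin d) ℂ) (ψ : (Site L → Fin d) → ℂ) : Prop :=
  normSq ψ = 1 ∧ TransInv ψ ∧ ∃ E : ℝ, LeastEigenvalue H E ∧ H.mulVec ψ = (E : ℂ) • ψ

/-- The gap of `h` is stable under perturbations supported on the region `R`: for every Hermitian
`O` on `R` there are `δ, Δ > 0` such that for all large `L` and all `0 < t ≤ δ` the Hamiltonian
`H_L(h) + t H_L(O)` has a unique ground state, with a gap of at least `Δ`. -/
def StableGap {d : ℕ} (B : Finset (ℤ × ℤ)) (h : Matrix (B → Fin d) (B → Fin d) ℂ)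
    (R : Finset (ℤ × ℤ)) : Prop :=
  ∀ O : Matrix (R → Fin d) (R → Fin d) ℂ, O.IsHermitian → ∃ δ : ℝ, 0 < δ ∧ ∃ Δ : ℝ, 0 < Δ ∧
    ∃ L₁ : ℕ, ∀ (L : ℕ) [NeZero L], L₁ ≤ L → ∀ t : ℝ, 0 < t → t ≤ δ →
      ∃ φ : (Site L → Fin d) → ℂ, normSq φ = 1 ∧
        IsGappedGround (ham B h L + (t : ℂ) • ham R O L) Δ φ

/-- **Theorem.** Let `ψ L` be the ground states of a gapped interaction `h` on `B`, and let `R` be a
finite region which contains `B`, such that the gap of `h` is stable under perturbations supported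
on `R`. Then for all `R₀ ⊆ R` and `ε > 0` there are one tensor `A` of bond dimension
`bondDim d R₀ ε` and a `δ > 0` such that for all large `L` the PEPS vector of `A` is nonzero, its
reduced state on `R₀` is `ε`-close to that of `ψ L`, and also to that of every invariant ground
vector of `H_L(h) + H_L(k)`, for every Hermitian `k` on `R` with entries of modulus at most `δ`. -/
theorem result (d : ℕ) (hd : 2 ≤ d) (B R₀ R : Finset (ℤ × ℤ)) (hBR : B ⊆ R) (hR : R₀ ⊆ R)
    (h : Matrix (B → Fin d) (B → Fin d) ℂ) (hh : h.IsHermitian)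
    (ψ : ∀ (L : ℕ) [NeZero L], (Site L → Fin d) → ℂ) (hgap : GappedFamily B h ψ)
    (hst : StableGap B h R) (ε : ℝ) (hε : 0 < ε) :
    ∃ A : Tensor d (bondDim d R₀ ε), ∃ δ : ℝ, 0 < δ ∧ ∃ L₀ : ℕ, ∀ (L : ℕ) [NeZero L], L₀ ≤ L →
      contract A L ≠ 0 ∧ traceNorm (redState R₀ (ψ L) - redState R₀ (contract A L)) ≤ ε ∧
        ∀ k : Matrix (R → Fin d) (R → Fin d) ℂ, k.IsHermitian → (∀ a b, ‖k a b‖ ≤ δ) →
          ∀ φ : (Site L → Fin d) → ℂ, InvariantGroundVector (ham B h L + ham R k L) φ →
            traceNorm (redState R₀ φ - redState R₀ (contract A L)) ≤ ε :=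
  Pool.Agent.Y665.PE.stable_unif hd hBR hR hh ψ hgap hst ε hε

end Pool.Agent.Results.MP_0f69bf_mp.StableGap
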