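import Mathlib
import Pool.Agent.Y738.PE.AE4

/-!
# The variational method with translation invariant PEPS

Let `d ≥ 2`, `q ≥ 1`. Interactions are the Hermitian matrices `h` on `q × q` boxes, `H_L = ∑ τ_v(h)` on the
`L × L` torus; they are parametrised linearly by the real matrices `X`:
`h = hermOf X = (X + Xᵀ) + i (X - Xᵀ)`. Put `bond d q ε = (4 (n M + 1))² d^(4 n²)`, `n = ⌈12 q / ε⌉`,
`M = ⌈24 / ε⌉`.

(0) For `0 < ε ≤ 1` there is a finite list of tensors with bond dimension `bond d q ε`, depending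
only on `d`, `q`, `ε`, such that for every translation invariant unit vector on a large torus ONE
tensor of the list reproduces, on ALL large tori, its reduced density matrices on all regions in
the `q × q` box up to `ε` in trace norm.

(1) The ground energies per site converge, for every interaction; the limit is `F`.

(2) For EVERY interaction and `0 < η ≤ 1` one translation invariant tensor of bond dimension
`bond d q (η / (2 (entrySum h + 1)))` has energy per site at most `F + η` on all large tori.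

(3) `F` is differentiable at Lebesgue almost every interaction.

(4) At every interaction at which `F` is differentiable the variational method gives the right
local observables: for each `ε > 0` there is `η > 0` such that on all large tori EVERY translation
invariant unit vector, and the vector of EVERY translation invariant PEPS tensor of ANY bond
dimension, with energy per site at most `F + η`, has reduced density matrices `ε`-close to those of
all translation invariant ground states (of any large size) on all regions in the `q × q` box.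

No assumption on gaps, uniqueness of ground states or convergence of reduced density matrices is
made. In particular the conclusion of Q1 holds for almost every interaction for regions in the
`q × q` box, with the tensor found by minimising the energy.
-/

set_option autoImplicit false

open scoped BigOperators ComplexConjugate Classical Topology

noncomputable section

namespace Pool.Agent.Results.MP_0f69bf_mp.VariationalPEPS

/-- Sites of the `L × L` torus. -/
abbrev Site (L : ℕ) := ZMod L × ZMod L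

/-- Configurations (basis states) of the torus with local dimension `d`; vectors are functions
`Conf d L → ℂ`. -/
abbrev Conf (d L : ℕ) := Site L → Fin d

/-- Configurations of a `q × q` box. -/
abbrev BConf (d q : ℕ) := Fin q × Fin q → Fin d

/-- Squared norm of a vector. -/
def nrm {S : Type} [Fintype S] (f : S → ℂ) : ℝ := ∑ s, ‖f s‖ ^ 2

/-- The matrix `B` has operator norm at most `1`. -/
def Contr {S : Type} [Fintype S] (B : S → S → ℂ) : Prop :=
  ∀ f : S → ℂ, nrm (fun σ => ∑ τ, B σ τ * f τ) ≤ nrm f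

/-- The restriction of `s` to the `q × q` box with corner `v`. -/
def box {d L : ℕ} (q : ℕ) (s : Conf d L) (v : Site L) : BConf d q :=
  fun p => s (v.1 + ((p.1 : ℕ) : ZMod L), v.2 + ((p.2 : ℕ) : ZMod L))

/-- The configuration `s` with its content on the `q × q` box with corner `v` replaced by `τ`. -/
def put {d L q : ℕ} (s : Conf d L) (v : Site L) (τ : BConf d q) : Conf d L :=
  fun w => if h : (w.1 - v.1).val < q ∧ (w.2 - v.2).val < q then
    τ (⟨(w.1 - v.1).val, h.1⟩, ⟨(w.2 - v.2).val, h.2⟩) else s w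

/-- The restriction of `s` to the translate by `v` of the region `R ⊂ ℤ²`. -/
def res {d L : ℕ} (R : Finset (ℤ × ℤ)) (s : Conf d L) (v : Site L) : R → Fin d :=
  fun p => s (v.1 + ((p : ℤ × ℤ).1 : ZMod L), v.2 + ((p : ℤ × ℤ).2 : ZMod L))

/-- `⟨Ψ, B_v Ψ⟩`, the matrix `B` acting on the translate by `v` of the region `R`: the sum of
`conj (Ψ s) * B (s on v + R) (s' on v + R) * Ψ s'` over all pairs `s`, `s'` which agree off
`v + R`. -/
def expecR {d L : ℕ} [NeZero L] (R : Finset (ℤ × ℤ)) (Ψ : Conf d L → ℂ) (v : Site L)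
    (B : (R → Fin d) → (R → Fin d) → ℂ) : ℂ :=
  ∑ s : Conf d L, ∑ s' : Conf d L,
    if (∀ w : Site L, (∀ p ∈ R, w ≠ (v.1 + (p.1 : ZMod L), v.2 + (p.2 : ZMod L))) → s w = s' w)
    then conj (Ψ s) * B (res R s v) (res R s' v) * Ψ s' else 0

/-- The reduced density matrices on `R` of the normalised vectors `Ψ`, `Ψ'` (on two possibly
different tori, at any positions) have trace distance at most `ε`: the expectations of all
matrices of norm at most `1` differ by at most `ε`. -/
def Close {d L L' : ℕ} [NeZero L] [NeZero L'] (R : Finset (ℤ × ℤ)) (Ψ : Conf d L → ℂ)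
    (Ψ' : Conf d L' → ℂ) (ε : ℝ) : Prop :=
  ∀ (u : Site L) (v : Site L') (B : (R → Fin d) → (R → Fin d) → ℂ), Contr B →
    ‖expecR R Ψ u B / (nrm Ψ : ℂ) - expecR R Ψ' v B / (nrm Ψ' : ℂ)‖ ≤ ε

/-- A PEPS tensor with physical dimension `d` and bond dimension `D`; indices: physical, left,
right, down, up. -/
abbrev Tensor (d D : ℕ) := Fin d → Fin D → Fin D → Fin D → Fin D → ℂ

/-- The translation invariant PEPS vector of the tensor `A` on the `L × L` torus. -/
def peps {d D : ℕ} (A : Tensor d D) (L : ℕ) [NeZero L] : Conf d L → ℂ :=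
  fun s => ∑ hor : Site L → Fin D, ∑ ver : Site L → Fin D,
    ∏ v : Site L, A (s v) (hor (v.1 - 1, v.2)) (hor v) (ver (v.1, v.2 - 1)) (ver v)

/-- The bond dimension `(4 (n M + 1))² d^(4 n²)`, `n = ⌈12 r / ε⌉`, `M = ⌈24 / ε⌉`. -/
def bond (d r : ℕ) (ε : ℝ) : ℕ :=
  (4 * (⌈12 * (r : ℝ) / ε⌉₊ * ⌈24 / ε⌉₊ + 1)) ^ 2 * d ^ (4 * ⌈12 * (r : ℝ) / ε⌉₊ ^ 2)

/-- The vector `Ψ` is translation invariant up to scalars. -/
def TransInv {d L : ℕ} (Ψ : Conf d L → ℂ) : Prop :=
  ∀ a : Site L, ∃ c : ℂ, ∀ s : Conf d L, Ψ (fun w => s (w + a)) = c * Ψ s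

/-- The Hamiltonian `H_L = ∑_v τ_v(h)` of an interaction `h` on `q × q` boxes. -/
def ham {d q : ℕ} (h : BConf d q → BConf d q → ℂ) (L : ℕ) [NeZero L] (Ψ : Conf d L → ℂ) :
    Conf d L → ℂ :=
  fun s => ∑ v : Site L, ∑ τ : BConf d q, h (box q s v) τ * Ψ (put s v τ)

/-- The Hermitian matrix `(X + Xᵀ) + i (X - Xᵀ)` of a real matrix `X`; a linear bijection between
the real square matrices and the Hermitian matrices. -/
def hermOf {d q : ℕ} (X : BConf d q → BConf d q → ℝ) : BConf d q → BConf d q → ℂ :=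
  fun σ τ => ((X σ τ + X τ σ : ℝ) : ℂ) + ((X σ τ - X τ σ : ℝ) : ℂ) * Complex.I

/-- The energy `⟨φ, H_L φ⟩`. -/
def en {d q : ℕ} (h : BConf d q → BConf d q → ℂ) (L : ℕ) [NeZero L] (φ : Conf d L → ℂ) : ℝ :=
  (∑ s, conj (φ s) * ham h L φ s).re

/-- The sum of the absolute values of the entries of `h`. -/
def entrySum {d q : ℕ} (h : BConf d q → BConf d q → ℂ) : ℝ := ∑ σ, ∑ τ, ‖h σ τ‖

/-- `Ψ` is a normalised ground state: it minimises the energy among the unit vectors. -/
def IsGround {d q : ℕ} (h : BConf d q → BConf d q → ℂ) (L : ℕ) [NeZero L] (Ψ : Conf d L → ℂ) :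
    Prop :=
  nrm Ψ = 1 ∧ ∀ φ : Conf d L → ℂ, nrm φ = 1 → en h L Ψ ≤ en h L φ

/-- The region lies inside the `q × q` box `[0, q)²`. -/
def InBox (q : ℕ) (R : Finset (ℤ × ℤ)) : Prop :=
  ∀ p ∈ R, (0 ≤ p.1 ∧ p.1 < (q : ℤ)) ∧ (0 ≤ p.2 ∧ p.2 < (q : ℤ))

theorem result (d q : ℕ) (hd : 2 ≤ d) (hq : 0 < q) :
    -- (0) the universal list of tensors
    (∀ ε : ℝ, 0 < ε → ε ≤ 1 →
      ∃ (L₀ K : ℕ) (A : Fin K → Tensor d (bond d q ε)), ∀ (L : ℕ) [NeZero L], L₀ ≤ L →
        ∀ Ψ : Conf d L → ℂ, nrm Ψ = 1 → TransInv Ψ → ∃ k : Fin K,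
          ∀ (L' : ℕ) [NeZero L'], L₀ ≤ L' → nrm (peps (A k) L') ≠ 0 ∧
            ∀ R, InBox q R → Close R Ψ (peps (A k) L') ε) ∧
    ∃ F : (BConf d q → BConf d q → ℝ) → ℝ,
      -- (1) `F` is the limit of the ground energies per site
      (∀ (X : BConf d q → BConf d q → ℝ) (δ : ℝ), 0 < δ → ∃ L₁ : ℕ, ∀ (L : ℕ) [NeZero L],
        L₁ ≤ L → ∀ Ψ : Conf d L → ℂ, IsGround (hermOf X) L Ψ →
          |en (hermOf X) L Ψ / (L : ℝ) ^ 2 - F X| ≤ δ) ∧
      -- (2) one tensor with almost minimal energy per site on all large tori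
      (∀ (X : BConf d q → BConf d q → ℝ) (η : ℝ), 0 < η → η ≤ 1 →
        ∃ (A : Tensor d (bond d q (η / (2 * (entrySum (hermOf X) + 1))))) (L₁ : ℕ),
        ∀ (L : ℕ) [NeZero L], L₁ ≤ L → nrm (peps A L) ≠ 0 ∧
          en (hermOf X) L (peps A L) ≤ (F X + η) * (L : ℝ) ^ 2 * nrm (peps A L)) ∧
      -- (3) differentiability almost everywhere
      (∀ᵐ X : BConf d q → BConf d q → ℝ, DifferentiableAt ℝ F X) ∧
      -- (4) at points of differentiability almost minimal energy gives the right marginals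
      ∀ X : BConf d q → BConf d q → ℝ, DifferentiableAt ℝ F X → ∀ ε : ℝ, 0 < ε →
        ∃ η : ℝ, 0 < η ∧ ∃ L₁ : ℕ, ∀ (L L' : ℕ) [NeZero L] [NeZero L'], L₁ ≤ L → L₁ ≤ L' →
          ∀ Ψ' : Conf d L' → ℂ, IsGround (hermOf X) L' Ψ' → TransInv Ψ' →
          ∀ R, InBox q R →
          (∀ Ψ : Conf d L → ℂ, nrm Ψ = 1 → TransInv Ψ →
            en (hermOf X) L Ψ ≤ (F X + η) * (L : ℝ) ^ 2 → Close R Ψ' Ψ ε) ∧
          (∀ (D : ℕ) (A : Tensor d D), nrm (peps A L) ≠ 0 →
            en (hermOf X) L (peps A L) ≤ (F X + η) * (L : ℝ) ^ 2 * nrm (peps A L) →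
            Close R Ψ' (peps A L) ε) :=
  ⟨Pool.Agent.Y738.PE.list_box d q hd hq, Pool.Agent.Y738.PE.variational d q hd hq⟩

end Pool.Agent.Results.MP_0f69bf_mp.VariationalPEPS
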